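import Mathlib

open MvPolynomial

namespace Pool.Agent.Results.MP_9fbe61_ag.RestrictedQuasiDiagonals

noncomputable section

/-- The Cartesian power `E^n` of the elliptic curve `E : W` over `ℂ`, as a set of points:
`n`-tuples of points of `E`. -/
def EPow (W : WeierstrassCurve ℂ) (n : ℕ) : Type := Fin n → W.toAffine.Point

/-- Homogeneous coordinates `[X : Y : Z]` in `ℙ²` of a point of `E`: the point at infinity is
`[0 : 1 : 0]` and the affine point `(x, y)` is `[x : y : 1]`. -/
def coords {W : WeierstrassCurve ℂ} : W.toAffine.Point → Fin 3 → ℂ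
  | .zero => ![0, 1, 0]
  | .some x y _ => ![x, y, 1]

/-- Polynomials in the `n` triples of homogeneous coordinates of `(ℙ²)^n`. -/
abbrev Poly (n : ℕ) : Type := MvPolynomial (Fin n × Fin 3) ℂ

/-- `F` is multihomogeneous of multidegree `d`: homogeneous of degree `d i` in the `i`-th triple
of variables, for each `i`. -/
def IsMultiHom {n : ℕ} (F : Poly n) (d : Fin n → ℕ) : Prop :=
  F.IsWeightedHomogeneous (fun k : Fin n × Fin 3 => (Pi.single k.1 1 : Fin n → ℕ)) d

/-- The value of `F` at (the chosen homogeneous coordinates of) a point of `E^n`. -/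
def value {W : WeierstrassCurve ℂ} {n : ℕ} (F : Poly n) (P : EPow W n) : ℂ :=
  eval (fun k => coords (P k.1) k.2) F

/-- Algebraic subsets of `E^n ⊆ (ℙ²)^n`: common zero sets of multihomogeneous polynomials. -/
def IsAlgebraicSet {W : WeierstrassCurve ℂ} {n : ℕ} (Z : Set (EPow W n)) : Prop :=
  ∃ T : Set (Poly n), (∀ F ∈ T, ∃ d, IsMultiHom F d) ∧ Z = {P | ∀ F ∈ T, value F P = 0}

theorem value_mul {W : WeierstrassCurve ℂ} {n : ℕ} (F G : Poly n) (P : EPow W n) :
    value (F * G) P = value F P * value G P := by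
  simp [value]

/-- The Zariski topology on `E^n`: the closed sets are the algebraic subsets. -/
instance zariski (W : WeierstrassCurve ℂ) (n : ℕ) : TopologicalSpace (EPow W n) :=
  TopologicalSpace.ofClosed {Z | IsAlgebraicSet Z}
    (by
      refine ⟨{1}, ?_, ?_⟩
      · rintro F rfl
        exact ⟨0, isWeightedHomogeneous_one _ _⟩
      · ext P
        simp [value])
    (by
      intro A hA
      refine ⟨{F | (∃ d, IsMultiHom F d) ∧ ∃ Z ∈ A, ∀ P ∈ Z, value F P = 0}, fun F hF => hF.1, ?_⟩
      ext P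
      constructor
      · rintro h F ⟨-, Z, hZ, hF⟩
        exact hF P (h Z hZ)
      · intro h Z hZ
        obtain ⟨T, hT, hZT⟩ := hA hZ
        rw [hZT]
        intro F hF
        refine h F ⟨hT F hF, Z, hZ, fun Q hQ => ?_⟩
        rw [hZT] at hQ
        exact hQ F hF)
    (by
      rintro A ⟨T, hT, rfl⟩ B ⟨U, hU, rfl⟩
      refine ⟨{H | ∃ F ∈ T, ∃ G ∈ U, H = F * G}, ?_, ?_⟩
      · rintro H ⟨F, hF, G, hG, rfl⟩
        obtain ⟨d, hd⟩ := hT F hF
        obtain ⟨e, he⟩ := hU G hG
        exact ⟨d + e, hd.mul he⟩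
      · ext P
        constructor
        · rintro (h | h) H ⟨F, hF, G, hG, rfl⟩
          · rw [value_mul, h F hF, zero_mul]
          · rw [value_mul, h G hG, mul_zero]
        · intro h
          by_contra hc
          have hc' : ¬ (∀ F ∈ T, value F P = 0) ∧ ¬ (∀ G ∈ U, value G P = 0) := not_or.mp hc
          obtain ⟨hc1, hc2⟩ := hc'
          push Not at hc1 hc2
          obtain ⟨F, hF, hF'⟩ := hc1
          obtain ⟨G, hG, hG'⟩ := hc2
          have := h _ ⟨F, hF, G, hG, rfl⟩
          rw [value_mul] at this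
          exact (mul_ne_zero hF' hG') this)

theorem isClosed_iff {W : WeierstrassCurve ℂ} {n : ℕ} (Z : Set (EPow W n)) :
    IsClosed Z ↔ IsAlgebraicSet Z := by
  rw [← isOpen_compl_iff]
  change Zᶜᶜ ∈ {Z | IsAlgebraicSet Z} ↔ _
  simp

/-- An irreducible (reduced) curve in `E^n`: a closed irreducible subset of dimension one. -/
def IsIrreducibleCurve {W : WeierstrassCurve ℂ} {n : ℕ} (S : Set (EPow W n)) : Prop :=
  IsClosed S ∧ IsIrreducible S ∧ topologicalKrullDim S = 1

/-- Let `L = O_E(1)` be the restriction to `E` of `O(1)` on `ℙ²`, an ample line bundle of degree `3`.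
For `a : Fin n → ℤ` let `L(a)` be the line bundle `p_1^* L^(a_1) ⊗ ⋯ ⊗ p_n^* L^(a_n)` on `E^n`.
`TrivialOn S a` says that `L(a)|_S` is trivial: there is a nowhere vanishing section `u` of `L(a)` over
`S`; here `u P` is the value of the section in the chosen homogeneous coordinates of `P`. Being a
nowhere vanishing section means that near each point `P` of `S` the section is a quotient `F / G` of
multihomogeneous polynomials with multidegree difference `a`, both nonzero at `P`. -/
def TrivialOn {W : WeierstrassCurve ℂ} {n : ℕ} (S : Set (EPow W n)) (a : Fin n → ℤ) : Prop :=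
  ∃ u : EPow W n → ℂ, ∀ P ∈ S, ∃ (F G : Poly n) (d e : Fin n → ℕ),
    IsMultiHom F d ∧ IsMultiHom G e ∧ (∀ i, (d i : ℤ) - e i = a i) ∧
    value F P ≠ 0 ∧ value G P ≠ 0 ∧
    ∀ Q ∈ S, value G Q ≠ 0 → u Q = value F Q / value G Q

/-- `S` is a quasi-diagonal over `(E, O_E(1))`: an irreducible curve on which all the line bundles
`p_i^* L ⊗ p_j^* L^(-1)` are torsion. -/
def IsQuasiDiagonal {W : WeierstrassCurve ℂ} {n : ℕ} (S : Set (EPow W n)) : Prop :=
  IsIrreducibleCurve S ∧
    ∀ i j, ∃ N : ℕ, 0 < N ∧ TrivialOn S ((N : ℤ) • (Pi.single i 1 - Pi.single j 1))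

open scoped Classical in
/-- `S` is restricted: `σ(S)` is a single point, where `σ` is the sum map `E^n → E`. -/
def IsRestricted {W : WeierstrassCurve ℂ} {n : ℕ} (S : Set (EPow W n)) : Prop :=
  ∃ c : W.toAffine.Point, (fun P : EPow W n => ∑ i, P i) '' S = {c}


/-! ### Homogenization -/

theorem isMultiHom_X {n : ℕ} (i : Fin n) (k : Fin 3) :
    IsMultiHom (X (i, k) : Poly n) (Pi.single i 1) :=
  isWeightedHomogeneous_X _ _ _

theorem exists_homogenization {n : ℕ} (H : Poly n) :
    ∃ D : Fin n → ℕ, ∀ D' : Fin n → ℕ, D ≤ D' → ∃ H' : Poly n, IsMultiHom H' D' ∧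
      ∀ (A : Type) [CommRing A] [Algebra ℂ A] (v : Fin n × Fin 3 → A), (∀ i, v (i, 2) = 1) →
        aeval v H' = aeval v H := by
  induction H using MvPolynomial.induction_on with
  | C a =>
    refine ⟨0, fun D' _ => ⟨C a * ∏ i, X (i, 2) ^ (D' i), ?_, ?_⟩⟩
    · have h1 : IsMultiHom (∏ i, X (i, 2) ^ (D' i) : Poly n)
          (∑ i, D' i • (Pi.single i 1 : Fin n → ℕ)) :=
        IsWeightedHomogeneous.prod _ _ _ (fun i _ => (isMultiHom_X i 2).pow (D' i))
      have h2 : (∑ i, D' i • (Pi.single i 1 : Fin n → ℕ)) = D' := by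
        ext j
        simp [Finset.sum_apply, Pi.single_apply]
      rw [h2] at h1
      exact h1.C_mul a
    · intro A _ _ v hv
      simp [hv]
  | add p q hp hq =>
    obtain ⟨D1, h1⟩ := hp
    obtain ⟨D2, h2⟩ := hq
    refine ⟨D1 ⊔ D2, fun D' hD' => ?_⟩
    obtain ⟨H1, hH1, e1⟩ := h1 D' (le_sup_left.trans hD')
    obtain ⟨H2, hH2, e2⟩ := h2 D' (le_sup_right.trans hD')
    refine ⟨H1 + H2, hH1.add hH2, ?_⟩
    intro A _ _ v hv
    rw [map_add, map_add, e1 A v hv, e2 A v hv]
  | mul_X p k hp =>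
    obtain ⟨D1, h1⟩ := hp
    refine ⟨D1 + Pi.single k.1 1, fun D' hD' => ?_⟩
    have hle : D1 ≤ D' - Pi.single k.1 1 := by
      intro i
      have := hD' i
      simp only [Pi.add_apply, Pi.sub_apply] at this ⊢
      omega
    obtain ⟨H1, hH1, e1⟩ := h1 _ hle
    refine ⟨H1 * X k, ?_, ?_⟩
    · have h3 := hH1.mul (isMultiHom_X k.1 k.2)
      have h4 : D' - Pi.single k.1 1 + Pi.single k.1 1 = D' := by
        ext i
        have := hD' i
        simp only [Pi.add_apply, Pi.sub_apply] at this ⊢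
        omega
      rw [h4] at h3
      exact h3
    · intro A _ _ v hv
      rw [map_mul, map_mul, e1 A v hv]

/-! ### The closed set attached to a generic point -/

/-- An algebraic closure of `ℂ(t)`. -/
abbrev KK : Type := AlgebraicClosure (FractionRing (Polynomial ℂ))

/-- the transcendental element `t` of `KK` -/
def tt : KK := algebraMap (Polynomial ℂ) KK Polynomial.X

theorem algebraMap_injective' : Function.Injective (algebraMap (Polynomial ℂ) KK) := by
  rw [IsScalarTower.algebraMap_eq (Polynomial ℂ) (FractionRing (Polynomial ℂ)) KK]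
  exact (algebraMap (FractionRing (Polynomial ℂ)) KK).injective.comp
    (IsFractionRing.injective (Polynomial ℂ) (FractionRing (Polynomial ℂ)))

theorem tt_ne_algebraMap (c : ℂ) : tt ≠ algebraMap ℂ KK c := by
  intro h
  have h1 : algebraMap (Polynomial ℂ) KK (Polynomial.C c) = algebraMap ℂ KK c := by
    rw [IsScalarTower.algebraMap_apply ℂ (Polynomial ℂ) KK]
    rfl
  rw [← h1] at h
  have h2 := algebraMap_injective' h
  exact Polynomial.X_ne_C c h2

section Generic

variable {W : WeierstrassCurve ℂ} {n : ℕ}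

/-- The Zariski closure of a generic point `g`. -/
def closureOf (W : WeierstrassCurve ℂ) {n : ℕ} (g : Fin n × Fin 3 → KK) : Set (EPow W n) :=
  {P | ∀ (F : Poly n) (d : Fin n → ℕ), IsMultiHom F d → aeval g F = 0 → value F P = 0}

theorem isClosed_closureOf (g : Fin n × Fin 3 → KK) : IsClosed (closureOf W g) := by
  rw [isClosed_iff]
  refine ⟨{F | (∃ d, IsMultiHom F d) ∧ aeval g F = 0}, fun F hF => hF.1, ?_⟩
  ext P
  constructor
  · rintro h F ⟨⟨d, hd⟩, hF⟩
    exact h F d hd hF
  · intro h F d hd hF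
    exact h F ⟨⟨d, hd⟩, hF⟩

theorem coords_two {P : W.toAffine.Point} (hP : P ≠ 0) : coords P 2 = 1 := by
  cases P with
  | zero => exact absurd rfl hP
  | some x y h => rfl

theorem value_eq_aeval (F : Poly n) (P : EPow W n) :
    value F P = aeval (fun k => coords (P k.1) k.2) F := by
  rw [value, aeval_eq_eval]

theorem value_eq_zero_of_affine {g : Fin n × Fin 3 → KK} (hz : ∀ i, g (i, 2) = 1)
    {P : EPow W n} (hP : P ∈ closureOf W g) (hPaff : ∀ i, P i ≠ 0) (H : Poly n)
    (hH : aeval g H = 0) : value H P = 0 := by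
  obtain ⟨D, hD⟩ := exists_homogenization H
  obtain ⟨H', hH', e⟩ := hD D le_rfl
  have h1 : aeval g H' = 0 := by rw [e KK g hz, hH]
  have h2 := hP H' D hH' h1
  rw [value_eq_aeval] at h2 ⊢
  rw [← e ℂ _ (fun i => coords_two (hPaff i))]
  exact h2

theorem exists_poly_of_ne_zero {g : Fin n × Fin 3 → KK} (hz : ∀ i, g (i, 2) = 1) {i0 : Fin n}
    (hy : g (i0, 1) = tt) (F : Poly n) (hF : aeval g F ≠ 0) :
    ∃ p : Polynomial ℂ, p ≠ 0 ∧ ∀ P ∈ closureOf W g, (∀ i, P i ≠ 0) → value F P = 0 →
      p.eval (coords (P i0) 1) = 0 := by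
  have halg : IsAlgebraic (Polynomial ℂ) (aeval g F) := by
    have : Algebra.IsAlgebraic (Polynomial ℂ) KK :=
      (IsFractionRing.comap_isAlgebraic_iff (A := Polynomial ℂ)
        (K := FractionRing (Polynomial ℂ)) (C := KK)).2 inferInstance
    exact Algebra.IsAlgebraic.isAlgebraic _
  obtain ⟨q, hq0, hq⟩ := halg.exists_nonzero_coeff_and_aeval_eq_zero
    (mem_nonZeroDivisors_of_ne_zero hF)
  refine ⟨q.coeff 0, hq0, fun P hP hPaff hFP => ?_⟩
  set ι : Polynomial ℂ →+* Poly n := (Polynomial.aeval (X (i0, 1) : Poly n)).toRingHom with hι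
  set H : Poly n := q.eval₂ ι F with hH
  have h1 : ((aeval g : Poly n →ₐ[ℂ] KK) : Poly n →+* KK).comp ι =
      algebraMap (Polynomial ℂ) KK := by
    apply Polynomial.ringHom_ext
    · intro a
      simp only [hι, RingHom.comp_apply, AlgHom.toRingHom_eq_coe, RingHom.coe_coe,
        Polynomial.aeval_C]
      rw [AlgHom.commutes, IsScalarTower.algebraMap_apply ℂ (Polynomial ℂ) KK]
      rfl
    · simp only [hι, RingHom.comp_apply, AlgHom.toRingHom_eq_coe, RingHom.coe_coe,
        Polynomial.aeval_X, aeval_X, hy]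
      rfl
  have h2 : aeval g H = 0 := by
    have h3 := Polynomial.hom_eval₂ q ι ((aeval g : Poly n →ₐ[ℂ] KK) : Poly n →+* KK) F
    rw [h1] at h3
    rw [hH]
    exact h3.trans hq
  have h4 := value_eq_zero_of_affine hz hP hPaff H h2
  rw [value, hH, Polynomial.hom_eval₂] at h4
  have h5 : eval (fun k : Fin n × Fin 3 => coords (P k.1) k.2) F = 0 := hFP
  rw [h5, Polynomial.eval₂_at_zero] at h4
  rw [← h4]
  simp only [hι, RingHom.comp_apply, AlgHom.toRingHom_eq_coe, RingHom.coe_coe]
  rw [Polynomial.aeval_def, Polynomial.hom_eval₂]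
  simp only [eval_X]
  rw [Polynomial.eval]
  congr 1
  ext a
  simp

theorem infinite_closureOf [W.IsElliptic] {g : Fin n × Fin 3 → KK} (hz : ∀ i, g (i, 2) = 1)
    {i0 : Fin n} (hy : g (i0, 1) = tt)
    (heq : ∀ i, g (i, 1) ^ 2 + algebraMap ℂ KK W.a₁ * g (i, 0) * g (i, 1)
      + algebraMap ℂ KK W.a₃ * g (i, 1) = g (i, 0) ^ 3 + algebraMap ℂ KK W.a₂ * g (i, 0) ^ 2
      + algebraMap ℂ KK W.a₄ * g (i, 0) + algebraMap ℂ KK W.a₆) :
    (closureOf W g).Infinite := by
  intro hfin
  set I : Ideal (Poly n) := RingHom.ker (aeval g : Poly n →ₐ[ℂ] KK) with hI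
  have hIp : I.IsPrime := RingHom.ker_isPrime _
  -- points of the zero locus give points of the closure
  have hz' : ∀ v ∈ zeroLocus ℂ I, ∀ i, v (i, 2) = 1 := by
    intro v hv i
    have h1 : (X (i, 2) - 1 : Poly n) ∈ I := by
      rw [hI, RingHom.mem_ker]
      simp [hz]
    have h2 := hv _ h1
    simpa [sub_eq_zero] using h2
  have heq' : ∀ v ∈ zeroLocus ℂ I, ∀ i, W.toAffine.Nonsingular (v (i, 0)) (v (i, 1)) := by
    intro v hv i
    rw [← WeierstrassCurve.Affine.equation_iff_nonsingular, WeierstrassCurve.Affine.equation_iff]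
    have h1 : (X (i, 1) ^ 2 + C W.a₁ * X (i, 0) * X (i, 1) + C W.a₃ * X (i, 1)
        - (X (i, 0) ^ 3 + C W.a₂ * X (i, 0) ^ 2 + C W.a₄ * X (i, 0) + C W.a₆) : Poly n) ∈ I := by
      rw [hI, RingHom.mem_ker]
      simp only [map_sub, map_add, map_mul, map_pow, aeval_X, aeval_C]
      rw [heq i, sub_self]
    have h2 := hv _ h1
    simp only [map_sub, map_add, map_mul, map_pow, aeval_X, aeval_C, Algebra.algebraMap_self,
      RingHom.id_apply] at h2
    exact sub_eq_zero.1 h2
  -- the zero locus is finite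
  have hfin2 : (zeroLocus ℂ I).Finite := by
    refine Set.Finite.subset (hfin.image (fun P : EPow W n => fun k => coords (P k.1) k.2)) ?_
    intro v hv
    refine ⟨fun i => .some _ _ (heq' v hv i), ?_, ?_⟩
    · intro F d _ hF
      refine (value_eq_aeval F _).trans ?_
      have h1 := hv F (by rw [hI, RingHom.mem_ker]; exact hF)
      refine Eq.trans ?_ h1
      congr 2
      funext k
      obtain ⟨i, k⟩ := k
      fin_cases k
      · rfl
      · rfl
      · exact (hz' v hv i).symm
    · funext k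
      obtain ⟨i, k⟩ := k
      fin_cases k
      · rfl
      · rfl
      · exact (hz' v hv i).symm
  -- the product of the linear factors lies in the prime ideal
  have hA : (∏ v ∈ hfin2.toFinset, (X (i0, 1) - C (v (i0, 1))) : Poly n) ∈ I := by
    have h0 : (∏ v ∈ hfin2.toFinset, (X (i0, 1) - C (v (i0, 1))) : Poly n) ∈
        vanishingIdeal ℂ (zeroLocus ℂ I) := by
      intro v hv
      rw [map_prod]
      apply Finset.prod_eq_zero (i := v) (hfin2.mem_toFinset.2 hv)
      simp
    have h1 := IsPrime.vanishingIdeal_zeroLocus (K := ℂ) I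
    exact (SetLike.ext_iff.1 h1 _).1 h0
  rw [hIp.prod_mem_iff] at hA
  obtain ⟨v, -, hv⟩ := hA
  rw [hI, RingHom.mem_ker] at hv
  simp only [map_sub, aeval_X, aeval_C, hy] at hv
  exact tt_ne_algebraMap _ (sub_eq_zero.1 hv)

/-! ### Topology -/

theorem isClosed_singleton' (P : EPow W n) : IsClosed ({P} : Set (EPow W n)) := by
  rw [isClosed_iff]
  refine ⟨{F | (∃ d, IsMultiHom F d) ∧ value F P = 0}, fun F hF => hF.1, ?_⟩
  ext Q
  constructor
  · rintro rfl F ⟨-, hF⟩
    exact hF
  · intro h
    have key : ∀ i a b, coords (Q i) a * coords (P i) b = coords (Q i) b * coords (P i) a := by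
      intro i a b
      have hd : IsMultiHom (C (coords (P i) b) * X (i, a) - C (coords (P i) a) * X (i, b) : Poly n)
          (Pi.single i 1) :=
        ((isMultiHom_X i a).C_mul _).sub ((isMultiHom_X i b).C_mul _)
      have h1 := h _ ⟨⟨_, hd⟩, by simp [value, mul_comm]⟩
      simp only [value, map_sub, map_mul, eval_C, eval_X] at h1
      linear_combination h1
    change Q = P
    funext i
    have k02 := key i 0 2
    have k12 := key i 1 2
    revert k02 k12
    generalize Q i = q
    generalize P i = p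
    cases q with
    | zero =>
      cases p with
      | zero => intro _ _; rfl
      | some x y hxy =>
        intro _ k12
        simp [coords] at k12
    | some x y hxy =>
      cases p with
      | zero =>
        intro _ k12
        simp [coords] at k12
      | some x' y' hxy' =>
        intro k02 k12
        have e1 : x * 1 = 1 * x' := k02
        have e2 : y * 1 = 1 * y' := k12
        rw [mul_one, one_mul] at e1 e2
        subst e1
        subst e2
        rfl

theorem isIrreducibleCurve_closureOf {g : Fin n × Fin 3 → KK} (hinf : (closureOf W g).Infinite)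
    (hfin : ∀ F : Poly n, aeval g F ≠ 0 → {P ∈ closureOf W g | value F P = 0}.Finite) :
    IsIrreducibleCurve (closureOf W g) := by
  have hT : ∀ T : Set (EPow W n), IsClosed T → T ⊆ closureOf W g → T ≠ closureOf W g →
      T.Finite := by
    intro T hT hsub hne
    rw [isClosed_iff] at hT
    obtain ⟨U, hU, rfl⟩ := hT
    have h1 : ∃ F ∈ U, aeval g F ≠ 0 := by
      by_contra hc
      push Not at hc
      apply hne
      refine Set.Subset.antisymm hsub fun P hP F hF => ?_
      obtain ⟨d, hd⟩ := hU F hF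
      exact hP F d hd (hc F hF)
    obtain ⟨F, hF, hF'⟩ := h1
    exact (hfin F hF').subset fun P hP => ⟨hsub hP, hP F hF⟩
  have hcl : IsClosed (closureOf W g) := isClosed_closureOf g
  have hirr0 : IsIrreducible (closureOf W g) := by
    refine ⟨hinf.nonempty, ?_⟩
    rw [isPreirreducible_iff_isClosed_union_isClosed]
    intro A B hA hB hAB
    by_contra hc
    push Not at hc
    obtain ⟨hcA, hcB⟩ := hc
    have hfA := hT (closureOf W g ∩ A) (hcl.inter hA) Set.inter_subset_left
      (fun h => hcA (h ▸ Set.inter_subset_right))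
    have hfB := hT (closureOf W g ∩ B) (hcl.inter hB) Set.inter_subset_left
      (fun h => hcB (h ▸ Set.inter_subset_right))
    apply hinf
    refine (hfA.union hfB).subset fun P hP => ?_
    rcases hAB hP with h | h
    · exact Or.inl ⟨hP, h⟩
    · exact Or.inr ⟨hP, h⟩
  have hirr : IsIrreducible (Set.univ : Set (closureOf W g)) :=
    (isIrreducible_iff_irreducibleSpace.1 hirr0).isIrreducible_univ
  refine ⟨hcl, hirr0, ?_⟩
  · apply le_antisymm
    · rw [topologicalKrullDim, Order.krullDim_le_one_iff]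
      intro Z
      by_cases hZ : (Z : Set (closureOf W g)) = Set.univ
      · right
        intro Z' hZ' x hx
        have h1 : x ∈ (Z : Set (closureOf W g)) := by
          rw [hZ]
          trivial
        exact h1
      · left
        have hZc : IsClosed ((Subtype.val) '' (Z : Set (closureOf W g))) :=
          hcl.isClosedEmbedding_subtypeVal.isClosedMap _ Z.isClosed
        have hZfin : ((Subtype.val) '' (Z : Set (closureOf W g))).Finite := by
          apply hT _ hZc
          · rintro _ ⟨x, -, rfl⟩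
            exact x.2
          · intro h
            apply hZ
            ext x
            simp only [Set.mem_univ, iff_true]
            have h1 : (x : EPow W n) ∈ Subtype.val '' (Z : Set (closureOf W g)) := by
              rw [h]
              exact x.2
            obtain ⟨x', hx', hxx⟩ := h1
            rwa [← Subtype.ext hxx]
        have hZfin' : (Z : Set (closureOf W g)).Finite :=
          hZfin.of_finite_image Subtype.val_injective.injOn
        have hT1 : T1Space (closureOf W g) := by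
          have : T1Space (EPow W n) := ⟨isClosed_singleton'⟩
          infer_instance
        have hsub : (Z : Set (closureOf W g)).Subsingleton :=
          hZfin'.isDiscrete.subsingleton_of_isPreirreducible Z.isIrreducible.isPreirreducible
        intro Z' hZ' x hx
        obtain ⟨x', hx'⟩ := Z'.isIrreducible.nonempty
        rw [hsub hx (hZ' hx')]
        exact hx'
    · rw [topologicalKrullDim, Order.one_le_krullDim_iff]
      obtain ⟨P, hP⟩ := hinf.nonempty
      have hT1 : T1Space (closureOf W g) := by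
        have : T1Space (EPow W n) := ⟨isClosed_singleton'⟩
        infer_instance
      refine ⟨⟨{⟨P, hP⟩}, isIrreducible_singleton, isClosed_singleton⟩,
        ⟨Set.univ, hirr, isClosed_univ⟩, ?_⟩
      rw [lt_iff_le_not_ge]
      refine ⟨fun x _ => trivial, fun h => hinf ?_⟩
      refine (Set.finite_singleton P).subset fun Q hQ => ?_
      have h1 := h (show (⟨Q, hQ⟩ : closureOf W g) ∈ _ from trivial)
      exact congrArg Subtype.val h1

end Generic

/-! ### The explicit generic point -/

section Explicit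

variable (W : WeierstrassCurve ℂ)

/-- the coordinates of `W` in `KK` -/
abbrev aK (a : ℂ) : KK := algebraMap ℂ KK a

/-- The three intersection points of `E` with the horizontal line `Y = t`. -/
theorem exists_roots : ∃ x0 x1 x2 : KK, x0 + x1 + x2 = - aK W.a₂ ∧
    x0 * x1 + x0 * x2 + x1 * x2 = aK W.a₄ - aK W.a₁ * tt ∧
    x0 * x1 * x2 = tt ^ 2 + aK W.a₃ * tt - aK W.a₆ := by
  -- a root of the cubic
  obtain ⟨x0, h0⟩ : ∃ x0 : KK, x0 ^ 3 + aK W.a₂ * x0 ^ 2 + (aK W.a₄ - aK W.a₁ * tt) * x0
      + (aK W.a₆ - tt ^ 2 - aK W.a₃ * tt) = 0 := by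
    have hd : (Polynomial.X ^ 3 + Polynomial.C (aK W.a₂) * Polynomial.X ^ 2
        + Polynomial.C (aK W.a₄ - aK W.a₁ * tt) * Polynomial.X
        + Polynomial.C (aK W.a₆ - tt ^ 2 - aK W.a₃ * tt)).degree ≠ 0 := by
      have : (Polynomial.X ^ 3 + Polynomial.C (aK W.a₂) * Polynomial.X ^ 2
        + Polynomial.C (aK W.a₄ - aK W.a₁ * tt) * Polynomial.X
        + Polynomial.C (aK W.a₆ - tt ^ 2 - aK W.a₃ * tt)).degree = 3 := by
        compute_degree!
      rw [this]
      norm_num
    obtain ⟨x0, h0⟩ := IsAlgClosed.exists_root _ hd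
    refine ⟨x0, ?_⟩
    simpa [Polynomial.IsRoot] using h0
  -- a square root of the discriminant of the residual quadratic
  obtain ⟨s, hs⟩ := IsAlgClosed.exists_pow_nat_eq
    ((x0 + aK W.a₂) ^ 2 - 4 * (x0 ^ 2 + aK W.a₂ * x0 + (aK W.a₄ - aK W.a₁ * tt)))
    (n := 2) (by norm_num)
  refine ⟨x0, (-(x0 + aK W.a₂) + s) / 2, (-(x0 + aK W.a₂) - s) / 2, ?_, ?_, ?_⟩
  · ring
  · linear_combination (-1 / 4 : KK) * hs
  · linear_combination (-x0 / 4 : KK) * hs + h0

/-- the index `i` carries a minus sign -/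
abbrev IsNeg (i : ℕ) : Prop := 4 ≤ i ∧ i % 2 = 0

/-- The generic point: three collinear points `(x0, t), (x1, t), (x2, t)`, followed by copies of
`(x0, t)` and of its negative. -/
def gen (n : ℕ) (x0 x1 x2 : KK) (p : Fin n × Fin 3) : KK :=
  if p.2 = 0 then (if (p.1 : ℕ) = 1 then x1 else if (p.1 : ℕ) = 2 then x2 else x0)
  else if p.2 = 1 then (if IsNeg p.1 then -tt - aK W.a₁ * x0 - aK W.a₃ else tt)
  else 1

/-- the linear form `Y` (or its pull back by the negation of `E`) in the `i`-th coordinates -/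
def ell {n : ℕ} (i : Fin n) : Poly n :=
  if IsNeg i then -X (i, 1) - C W.a₁ * X (i, 0) - C W.a₃ * X (i, 2) else X (i, 1)

theorem isMultiHom_ell {n : ℕ} (i : Fin n) : IsMultiHom (ell W i) (Pi.single i 1) := by
  unfold ell
  split_ifs
  · exact ((isMultiHom_X i 1).neg.sub ((isMultiHom_X i 0).C_mul _)).sub
      ((isMultiHom_X i 2).C_mul _)
  · exact isMultiHom_X i 1

variable {W}

theorem aeval_gen_ell {n : ℕ} (x0 x1 x2 : KK) (i : Fin n) :
    aeval (gen W n x0 x1 x2) (ell W i) = tt := by
  unfold ell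
  split_ifs with h
  · have h1 : (i : ℕ) ≠ 1 := by
      obtain ⟨h, -⟩ := h
      omega
    have h2 : (i : ℕ) ≠ 2 := by
      obtain ⟨h, -⟩ := h
      omega
    simp only [gen, map_sub, map_neg, map_mul, aeval_X, aeval_C, Fin.isValue, one_ne_zero,
      if_false, if_true, if_pos h, if_neg h1, if_neg h2, aK, Fin.reduceEq]
    ring
  · simp [gen, h]

theorem gen_two {n : ℕ} (x0 x1 x2 : KK) (i : Fin n) : gen W n x0 x1 x2 (i, 2) = 1 := by
  simp [gen]

/-- the sign `-1` for the negated indices, `1` for the others -/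
def sgn (i : ℕ) : ℂ := if IsNeg i then -1 else 1

theorem sgn_ne_zero (i : ℕ) : sgn i ≠ 0 := by
  unfold sgn
  split_ifs <;> norm_num

theorem value_ell_zero {n : ℕ} (P : EPow W n) (i : Fin n) (h : P i = 0) :
    value (ell W i) P = sgn i := by
  unfold ell sgn
  have h0 : coords (P i) 0 = 0 := by rw [h]; rfl
  have h1 : coords (P i) 1 = 1 := by rw [h]; rfl
  have h2 : coords (P i) 2 = 0 := by rw [h]; rfl
  split_ifs
  · simp [value, h0, h1, h2]
  · simp [value, h1]

theorem rel_ell {n : ℕ} {x0 x1 x2 : KK} {P : EPow W n} (hP : P ∈ closureOf W (gen W n x0 x1 x2))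
    (i j : Fin n) : value (ell W i) P * coords (P j) 2 = coords (P i) 2 * value (ell W j) P := by
  have hd : IsMultiHom (ell W i * X (j, 2) - X (i, 2) * ell W j)
      (Pi.single i 1 + Pi.single j 1) :=
    ((isMultiHom_ell W i).mul (isMultiHom_X j 2)).sub
      ((isMultiHom_X i 2).mul (isMultiHom_ell W j))
  have h1 := hP _ _ hd (by
    simp only [map_sub, map_mul, aeval_gen_ell, aeval_X, gen_two]
    ring)
  have h2 : value (ell W i * X (j, 2) - X (i, 2) * ell W j) P
      = value (ell W i) P * coords (P j) 2 - coords (P i) 2 * value (ell W j) P := by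
    simp [value]
  rw [h2] at h1
  exact sub_eq_zero.1 h1

/-- If one coordinate of a point of the curve is `O`, all of them are. -/
theorem all_zero {n : ℕ} {x0 x1 x2 : KK} {P : EPow W n}
    (hP : P ∈ closureOf W (gen W n x0 x1 x2)) {i : Fin n} (hi : P i = 0) (j : Fin n) :
    P j = 0 := by
  by_contra hj
  have h1 := rel_ell hP i j
  rw [value_ell_zero P i hi, coords_two hj, hi] at h1
  have h2 : sgn i * 1 = 0 * value (ell W j) P := h1
  rw [zero_mul, mul_one] at h2
  exact sgn_ne_zero _ h2

/-- The line bundle `p_i^* O_E(1) ⊗ p_j^* O_E(-1)` is trivial on the curve. -/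
theorem trivialOn {n : ℕ} {x0 x1 x2 : KK} (i j : Fin n) :
    TrivialOn (closureOf W (gen W n x0 x1 x2)) (((1 : ℕ) : ℤ) • (Pi.single i 1 - Pi.single j 1)) := by
  classical
  refine ⟨fun P => if P i = 0 then sgn i / sgn j else 1, fun P hP => ?_⟩
  have hdeg : ∀ l : Fin n, (((Pi.single i 1 : Fin n → ℕ) l : ℕ) : ℤ)
      - ((Pi.single j 1 : Fin n → ℕ) l : ℕ) =
      ((((1 : ℕ) : ℤ) • (Pi.single i 1 - Pi.single j 1) : Fin n → ℤ)) l := by
    intro l
    simp only [Pi.single_apply, Nat.cast_one, one_smul, Pi.sub_apply]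
    split_ifs <;> simp
  have hval : ∀ Q : EPow W n, ∀ l : Fin n, value (X (l, 2) : Poly n) Q = coords (Q l) 2 := by
    intro Q l
    simp [value]
  have hzero : ∀ Q : EPow W n, ∀ l : Fin n, Q l = 0 → coords (Q l) 2 = 0 := by
    intro Q l h
    rw [h]
    rfl
  by_cases h0 : P i = 0
  · refine ⟨ell W i, ell W j, Pi.single i 1, Pi.single j 1, isMultiHom_ell W i,
      isMultiHom_ell W j, hdeg, ?_, ?_, ?_⟩
    · rw [value_ell_zero P i h0]
      exact sgn_ne_zero _
    · rw [value_ell_zero P j (all_zero hP h0 j)]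
      exact sgn_ne_zero _
    · intro Q hQ hGQ
      by_cases hQ0 : Q i = 0
      · simp only [hQ0, if_true]
        rw [value_ell_zero Q i hQ0, value_ell_zero Q j (all_zero hQ hQ0 j)]
      · have hQj : Q j ≠ 0 := fun h => hQ0 (all_zero hQ h i)
        simp only [hQ0, if_false]
        have h1 := rel_ell hQ i j
        rw [coords_two hQj, coords_two hQ0, mul_one, one_mul] at h1
        rw [h1, div_self hGQ]
  · have hPj : P j ≠ 0 := fun h => h0 (all_zero hP h i)
    refine ⟨X (i, 2), X (j, 2), Pi.single i 1, Pi.single j 1, isMultiHom_X i 2,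
      isMultiHom_X j 2, hdeg, ?_, ?_, ?_⟩
    · rw [hval, coords_two h0]
      norm_num
    · rw [hval, coords_two hPj]
      norm_num
    · intro Q hQ hGQ
      rw [hval] at hGQ
      have hQj : Q j ≠ 0 := fun h => hGQ (hzero Q j h)
      have hQi : Q i ≠ 0 := fun h => hQj (all_zero hQ h j)
      simp only [hQi, if_false]
      rw [hval, hval, coords_two hQi, coords_two hQj, div_one]

/-- Description of the affine points of the curve. -/
theorem affine_relations {k : ℕ} {x0 x1 x2 : KK}
    (e1 : x0 + x1 + x2 = - aK W.a₂)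
    (e2 : x0 * x1 + x0 * x2 + x1 * x2 = aK W.a₄ - aK W.a₁ * tt)
    (e3 : x0 * x1 * x2 = tt ^ 2 + aK W.a₃ * tt - aK W.a₆)
    {P : EPow W (2 * k + 3)} (hP : P ∈ closureOf W (gen W (2 * k + 3) x0 x1 x2))
    (hP0 : ∀ i, P i ≠ 0) :
    ∃ (y a b c : ℂ) (ha : W.toAffine.Nonsingular a y) (hb : W.toAffine.Nonsingular b y)
      (hc : W.toAffine.Nonsingular c y),
      P ⟨0, by omega⟩ = .some a y ha ∧ P ⟨1, by omega⟩ = .some b y hb ∧
      P ⟨2, by omega⟩ = .some c y hc ∧
      a + b + c = -W.a₂ ∧ a * b + a * c + b * c = W.a₄ - W.a₁ * y ∧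
      a * b * c = y ^ 2 + W.a₃ * y - W.a₆ ∧
      ∀ i : Fin (2 * k + 3), 3 ≤ (i : ℕ) →
        P i = if IsNeg i then -P ⟨0, by omega⟩ else P ⟨0, by omega⟩ := by
  have hz : ∀ i, gen W (2 * k + 3) x0 x1 x2 (i, 2) = 1 := gen_two x0 x1 x2
  have H := fun (F : Poly (2 * k + 3)) => value_eq_zero_of_affine hz hP hP0 F
  set i0 : Fin (2 * k + 3) := ⟨0, by omega⟩ with hi0
  set i1 : Fin (2 * k + 3) := ⟨1, by omega⟩ with hi1
  set i2 : Fin (2 * k + 3) := ⟨2, by omega⟩ with hi2
  have g00 : gen W (2 * k + 3) x0 x1 x2 (i0, 0) = x0 := by simp [gen, hi0]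
  have g10 : gen W (2 * k + 3) x0 x1 x2 (i1, 0) = x1 := by simp [gen, hi1]
  have g20 : gen W (2 * k + 3) x0 x1 x2 (i2, 0) = x2 := by simp [gen, hi2]
  have g01 : gen W (2 * k + 3) x0 x1 x2 (i0, 1) = tt := by simp [gen, hi0]
  have g11 : gen W (2 * k + 3) x0 x1 x2 (i1, 1) = tt := by simp [gen, hi1]
  have g21 : gen W (2 * k + 3) x0 x1 x2 (i2, 1) = tt := by simp [gen, hi2]
  -- equalities of the `y`-coordinates
  have hy1 : coords (P i1) 1 = coords (P i0) 1 := by
    have := H (X (i1, 1) - X (i0, 1)) (by simp [g01, g11])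
    simpa [value, sub_eq_zero] using this
  have hy2 : coords (P i2) 1 = coords (P i0) 1 := by
    have := H (X (i2, 1) - X (i0, 1)) (by simp [g01, g21])
    simpa [value, sub_eq_zero] using this
  have E1 := H (X (i0, 0) + X (i1, 0) + X (i2, 0) + C W.a₂) (by
    simp only [map_add, aeval_X, aeval_C, g00, g10, g20, e1]
    ring)
  have E2 := H (X (i0, 0) * X (i1, 0) + X (i0, 0) * X (i2, 0) + X (i1, 0) * X (i2, 0)
      - (C W.a₄ - C W.a₁ * X (i0, 1))) (by
    simp only [map_add, map_sub, map_mul, aeval_X, aeval_C, g00, g10, g20, g01, e2]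
    ring)
  have E3 := H (X (i0, 0) * X (i1, 0) * X (i2, 0)
      - (X (i0, 1) ^ 2 + C W.a₃ * X (i0, 1) - C W.a₆)) (by
    simp only [map_add, map_sub, map_mul, map_pow, aeval_X, aeval_C, g00, g10, g20, g01, e3]
    ring)
  simp only [value, map_add, map_sub, map_mul, map_pow, eval_X, eval_C] at E1 E2 E3
  -- the remaining indices
  have R : ∀ i : Fin (2 * k + 3), 3 ≤ (i : ℕ) →
      coords (P i) 0 = coords (P i0) 0 ∧
      coords (P i) 1 = if IsNeg i then -coords (P i0) 1 - W.a₁ * coords (P i0) 0 - W.a₃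
        else coords (P i0) 1 := by
    intro i hi
    have h1 : (i : ℕ) ≠ 1 := by omega
    have h2 : (i : ℕ) ≠ 2 := by omega
    constructor
    · have := H (X (i, 0) - X (i0, 0)) (by
        rw [map_sub, aeval_X, aeval_X, g00]
        simp [gen, h1, h2])
      simpa [value, sub_eq_zero] using this
    · by_cases hn : IsNeg i
      · rw [if_pos hn]
        have := H (X (i, 1) - (-X (i0, 1) - C W.a₁ * X (i0, 0) - C W.a₃)) (by
          simp only [map_sub, map_neg, map_mul, aeval_X, aeval_C, g00, g01]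
          simp only [gen, Fin.isValue, one_ne_zero, if_false, if_true, if_pos hn, aK]
          ring)
        simp only [value, map_sub, map_neg, map_mul, eval_X, eval_C] at this
        linear_combination this
      · rw [if_neg hn]
        have := H (X (i, 1) - X (i0, 1)) (by
          rw [map_sub, aeval_X, aeval_X, g01]
          simp [gen, hn])
        simpa [value, sub_eq_zero] using this
  have h00 := hP0 i0
  have h01 := hP0 i1
  have h02 := hP0 i2
  have hneg : ∀ i : Fin (2 * k + 3), 3 ≤ (i : ℕ) →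
        P i = if IsNeg i then -P i0 else P i0 := by
    intro i hi
    obtain ⟨ra, rb⟩ := R i hi
    have hii := hP0 i
    revert ra rb hii h00
    generalize P i = p
    generalize P i0 = q
    intro hq ra rb hp
    cases p with
    | zero => exact absurd rfl hp
    | some x y h =>
      cases q with
      | zero => exact absurd rfl hq
      | some x' y' h' =>
        have ra' : x = x' := ra
        by_cases hn : IsNeg i
        · rw [if_pos hn] at rb ⊢
          have rb' : y = -y' - W.a₁ * x' - W.a₃ := rb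
          subst ra' rb'
          rw [WeierstrassCurve.Affine.Point.neg_some]
          rfl
        · rw [if_neg hn] at rb ⊢
          have rb' : y = y' := rb
          subst ra' rb'
          rfl
  clear R
  revert hy1 hy2 E1 E2 E3 hneg h00 h01 h02
  generalize P i0 = p0
  generalize P i1 = p1
  generalize P i2 = p2
  intro hy1 hy2 E1 E2 E3 h00 h01 h02 hneg
  cases p0 with
  | zero => exact absurd rfl h00
  | some a y ha =>
  cases p1 with
  | zero => exact absurd rfl h01
  | some b y' hb =>
  cases p2 with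
  | zero => exact absurd rfl h02
  | some c y'' hc =>
  have hy1' : y' = y := hy1
  have hy2' : y'' = y := hy2
  subst hy1' hy2'
  have E1' : a + b + c + W.a₂ = 0 := E1
  have E2' : a * b + a * c + b * c - (W.a₄ - W.a₁ * y'') = 0 := E2
  have E3' : a * b * c - (y'' ^ 2 + W.a₃ * y'' - W.a₆) = 0 := E3
  refine ⟨y'', a, b, c, ha, hb, hc, rfl, rfl, rfl, ?_, ?_, ?_, hneg⟩
  · linear_combination E1'
  · linear_combination E2'
  · linear_combination E3'

open scoped Classical in
/-- Three collinear points (on a horizontal line) add up to zero. -/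
theorem add_add_eq_zero {y a b c : ℂ} (ha : W.toAffine.Nonsingular a y)
    (hb : W.toAffine.Nonsingular b y) (hc : W.toAffine.Nonsingular c y)
    (h1 : a + b + c = -W.a₂) (h2 : a * b + a * c + b * c = W.a₄ - W.a₁ * y) :
    (WeierstrassCurve.Affine.Point.some a y ha + WeierstrassCurve.Affine.Point.some b y hb
      + WeierstrassCurve.Affine.Point.some c y hc : W.toAffine.Point) = 0 := by
  have hc' : c = -W.a₂ - a - b := by linear_combination h1
  by_cases hab : a = b
  · subst hab
    have hder : 3 * a ^ 2 + 2 * W.a₂ * a + W.a₄ - W.a₁ * y = 0 := by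
      rw [hc'] at h2
      linear_combination -h2
    by_cases hyy : y = W.toAffine.negY a y
    · exfalso
      have hns := ha
      rw [WeierstrassCurve.Affine.nonsingular_iff] at hns
      rcases hns.2 with h | h
      · apply h
        linear_combination -hder
      · exact h hyy
    · have hsl : W.toAffine.slope a a y y = 0 := by
        rw [WeierstrassCurve.Affine.slope_of_Y_ne rfl hyy]
        rw [div_eq_zero_iff]
        left
        linear_combination hder
      rw [WeierstrassCurve.Affine.Point.add_self_of_Y_ne' hyy]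
      rw [neg_add_eq_zero]
      have hX : W.toAffine.addX a a (W.toAffine.slope a a y y) = c := by
        rw [hsl, WeierstrassCurve.Affine.addX, hc']
        ring
      have hY : W.toAffine.negAddY a a y (W.toAffine.slope a a y y) = y := by
        rw [WeierstrassCurve.Affine.negAddY, hX, hsl]
        ring
      congr 1
  · have hsl : W.toAffine.slope a b y y = 0 := by
      rw [WeierstrassCurve.Affine.slope_of_X_ne hab]
      simp
    rw [WeierstrassCurve.Affine.Point.add_of_X_ne' hab]
    rw [neg_add_eq_zero]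
    have hX : W.toAffine.addX a b (W.toAffine.slope a b y y) = c := by
      rw [hsl, WeierstrassCurve.Affine.addX, hc']
      ring
    have hY : W.toAffine.negAddY a b y (W.toAffine.slope a b y y) = y := by
      rw [WeierstrassCurve.Affine.negAddY, hX, hsl]
      ring
    congr 1

open scoped Classical in
theorem sum_alternating (Q : W.toAffine.Point) (k : ℕ) :
    ∑ i ∈ Finset.range (2 * k), (if IsNeg (3 + i) then -Q else Q) = 0 := by
  induction k with
  | zero => simp
  | succ k ih =>
    have h1 : 2 * (k + 1) = 2 * k + 1 + 1 := by ring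
    rw [h1, Finset.sum_range_succ, Finset.sum_range_succ, ih]
    have h2 : ¬ IsNeg (3 + 2 * k) := by
      unfold IsNeg
      omega
    have h3 : IsNeg (3 + (2 * k + 1)) := by
      unfold IsNeg
      omega
    rw [if_neg h2, if_pos h3]
    simp

open scoped Classical in
theorem sum_eq_zero {k : ℕ} {x0 x1 x2 : KK}
    (e1 : x0 + x1 + x2 = - aK W.a₂)
    (e2 : x0 * x1 + x0 * x2 + x1 * x2 = aK W.a₄ - aK W.a₁ * tt)
    (e3 : x0 * x1 * x2 = tt ^ 2 + aK W.a₃ * tt - aK W.a₆)
    {P : EPow W (2 * k + 3)} (hP : P ∈ closureOf W (gen W (2 * k + 3) x0 x1 x2)) :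
    ∑ i, P i = 0 := by
  by_cases h0 : ∃ i, P i = 0
  · obtain ⟨i, hi⟩ := h0
    exact Finset.sum_eq_zero fun j _ => all_zero hP hi j
  · push Not at h0
    obtain ⟨y, a, b, c, ha, hb, hc, p0, p1, p2, h1, h2, -, hR⟩ := affine_relations e1 e2 e3 hP h0
    set f : ℕ → W.toAffine.Point := fun i => if h : i < 2 * k + 3 then P ⟨i, h⟩ else 0 with hf
    have hsum : ∑ i : Fin (2 * k + 3), P i = ∑ i ∈ Finset.range (2 * k + 3), f i := by
      rw [Finset.sum_range]
      refine Finset.sum_congr rfl fun i _ => ?_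
      rw [hf]
      simp only [i.2, dif_pos]
    rw [hsum]
    have h3 : 2 * k + 3 = 3 + 2 * k := by ring
    rw [h3, Finset.sum_range_add]
    have h4 : ∑ i ∈ Finset.range 3, f i = 0 := by
      rw [Finset.sum_range_succ, Finset.sum_range_succ, Finset.sum_range_one]
      have f0 : f 0 = .some a y ha := by
        rw [← p0, hf]
        simp
      have f1 : f 1 = .some b y hb := by
        rw [← p1, hf]
        simp
      have f2 : f 2 = .some c y hc := by
        rw [← p2, hf]
        simp
      rw [f0, f1, f2]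
      exact add_add_eq_zero ha hb hc h1 h2
    rw [h4, zero_add, ← sum_alternating (P ⟨0, by omega⟩) k]
    refine Finset.sum_congr rfl fun i hi => ?_
    rw [Finset.mem_range] at hi
    have h5 : 3 + i < 2 * k + 3 := by omega
    rw [hf]
    simp only [h5, dif_pos]
    rw [hR ⟨3 + i, h5⟩ (by simp)]

/-- A nonzero multihomogeneous function on the curve has finitely many zeros. -/
theorem finite_zeros {k : ℕ} {x0 x1 x2 : KK}
    (e1 : x0 + x1 + x2 = - aK W.a₂)
    (e2 : x0 * x1 + x0 * x2 + x1 * x2 = aK W.a₄ - aK W.a₁ * tt)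
    (e3 : x0 * x1 * x2 = tt ^ 2 + aK W.a₃ * tt - aK W.a₆)
    (F : Poly (2 * k + 3)) (hF : aeval (gen W (2 * k + 3) x0 x1 x2) F ≠ 0) :
    {P ∈ closureOf W (gen W (2 * k + 3) x0 x1 x2) | value F P = 0}.Finite := by
  have hz : ∀ i, gen W (2 * k + 3) x0 x1 x2 (i, 2) = 1 := gen_two x0 x1 x2
  have g01 : gen W (2 * k + 3) x0 x1 x2 ((⟨0, by omega⟩ : Fin (2 * k + 3)), 1) = tt := by
    simp [gen]
  obtain ⟨p, hp, hpP⟩ := exists_poly_of_ne_zero (W := W) hz g01 F hF
  -- the finitely many possible values of the coordinates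
  set B : Set ℂ := {y | p.eval y = 0} with hB
  have hBfin : B.Finite := by
    refine (p.roots.toFinset.finite_toSet).subset fun y hy => ?_
    simp only [Finset.mem_coe, Multiset.mem_toFinset, Polynomial.mem_roots hp]
    exact hy
  set A : Set ℂ := ⋃ y ∈ B, {x | x ^ 3 + W.a₂ * x ^ 2 + (W.a₄ - W.a₁ * y) * x
    + (W.a₆ - y ^ 2 - W.a₃ * y) = 0} with hA
  have hAfin : A.Finite := by
    refine hBfin.biUnion fun y _ => ?_
    set q : Polynomial ℂ := Polynomial.X ^ 3 + Polynomial.C W.a₂ * Polynomial.X ^ 2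
        + Polynomial.C (W.a₄ - W.a₁ * y) * Polynomial.X
        + Polynomial.C (W.a₆ - y ^ 2 - W.a₃ * y) with hq
    have hq0 : q ≠ 0 := by
      have h3 : q.degree = 3 := by
        rw [hq]
        compute_degree!
      intro h
      rw [h, Polynomial.degree_zero] at h3
      exact absurd h3 (by decide)
    refine (q.roots.toFinset.finite_toSet).subset fun x hx => ?_
    simp only [Finset.mem_coe, Multiset.mem_toFinset, Polynomial.mem_roots hq0,
      Polynomial.IsRoot]
    rw [hq]
    simp only [Polynomial.eval_add, Polynomial.eval_mul, Polynomial.eval_pow,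
      Polynomial.eval_X, Polynomial.eval_C]
    exact hx
  set T : Set W.toAffine.Point := {Q | ∃ x ∈ A, ∃ y ∈ B, ∃ h, Q = .some x y h} with hT
  have hTfin : T.Finite := by
    have h1 : T ⊆ ⋃ x ∈ A, ⋃ y ∈ B, {Q | ∃ h, Q = .some x y h} := by
      rintro Q ⟨x, hx, y, hy, h, rfl⟩
      simp only [Set.mem_iUnion]
      exact ⟨x, hx, y, hy, h, rfl⟩
    refine Set.Finite.subset (hAfin.biUnion fun x _ => hBfin.biUnion fun y _ => ?_) h1
    refine Set.Subsingleton.finite ?_
    rintro _ ⟨h, rfl⟩ _ ⟨h', rfl⟩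
    rfl
  set T' : Set W.toAffine.Point := insert 0 (T ∪ (fun Q => -Q) '' T) with hT'
  have hT'fin : T'.Finite := (hTfin.union (hTfin.image _)).insert 0
  have hpi : (Set.pi Set.univ (fun _ : Fin (2 * k + 3) => T')).Finite :=
    Set.Finite.pi fun _ => hT'fin
  refine hpi.subset ?_
  rintro P ⟨hP, hFP⟩ i -
  by_cases h0 : ∃ j, P j = 0
  · obtain ⟨j, hj⟩ := h0
    left
    exact all_zero hP hj i
  · push Not at h0
    obtain ⟨y, a, b, c, ha, hb, hc, p0, p1, p2, h1, h2, h3, hR⟩ :=
      affine_relations e1 e2 e3 hP h0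
    have hy : y ∈ B := by
      have h4 := hpP P hP h0 hFP
      rw [p0] at h4
      exact h4
    have hmem : ∀ x, (x - a) * (x - b) * (x - c) = 0 → x ∈ A := by
      intro x hx
      rw [hA]
      simp only [Set.mem_iUnion]
      refine ⟨y, hy, ?_⟩
      change x ^ 3 + W.a₂ * x ^ 2 + (W.a₄ - W.a₁ * y) * x + (W.a₆ - y ^ 2 - W.a₃ * y) = 0
      linear_combination hx + x ^ 2 * h1 - x * h2 + h3
    have m0 : P ⟨0, by omega⟩ ∈ T := ⟨a, hmem a (by ring), y, hy, ha, p0⟩
    have m1 : P ⟨1, by omega⟩ ∈ T := ⟨b, hmem b (by ring), y, hy, hb, p1⟩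
    have m2 : P ⟨2, by omega⟩ ∈ T := ⟨c, hmem c (by ring), y, hy, hc, p2⟩
    right
    rcases i with ⟨i, hi⟩
    rcases Nat.lt_or_ge i 3 with hi3 | hi3
    · left
      interval_cases i
      · exact m0
      · exact m1
      · exact m2
    · rw [hR ⟨i, hi⟩ hi3]
      split_ifs
      · right
        exact ⟨_, m0, rfl⟩
      · left
        exact m0

theorem gen_equation {k : ℕ} {x0 x1 x2 : KK}
    (e1 : x0 + x1 + x2 = - aK W.a₂)
    (e2 : x0 * x1 + x0 * x2 + x1 * x2 = aK W.a₄ - aK W.a₁ * tt)
    (e3 : x0 * x1 * x2 = tt ^ 2 + aK W.a₃ * tt - aK W.a₆) (i : Fin (2 * k + 3)) :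
    gen W (2 * k + 3) x0 x1 x2 (i, 1) ^ 2
      + aK W.a₁ * gen W (2 * k + 3) x0 x1 x2 (i, 0) * gen W (2 * k + 3) x0 x1 x2 (i, 1)
      + aK W.a₃ * gen W (2 * k + 3) x0 x1 x2 (i, 1) =
    gen W (2 * k + 3) x0 x1 x2 (i, 0) ^ 3 + aK W.a₂ * gen W (2 * k + 3) x0 x1 x2 (i, 0) ^ 2
      + aK W.a₄ * gen W (2 * k + 3) x0 x1 x2 (i, 0) + aK W.a₆ := by
  have hroot : ∀ x, (x - x0) * (x - x1) * (x - x2) = 0 →
      tt ^ 2 + aK W.a₁ * x * tt + aK W.a₃ * tt =
        x ^ 3 + aK W.a₂ * x ^ 2 + aK W.a₄ * x + aK W.a₆ := by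
    intro x hx
    linear_combination -hx - x ^ 2 * e1 + x * e2 - e3
  have h0 := hroot x0 (by ring)
  have h1 := hroot x1 (by ring)
  have h2 := hroot x2 (by ring)
  by_cases hn : IsNeg i
  · have hi1 : (i : ℕ) ≠ 1 := by
      obtain ⟨h, -⟩ := hn
      omega
    have hi2 : (i : ℕ) ≠ 2 := by
      obtain ⟨h, -⟩ := hn
      omega
    have ga : gen W (2 * k + 3) x0 x1 x2 (i, 0) = x0 := by
      simp [gen, hi1, hi2]
    have gb : gen W (2 * k + 3) x0 x1 x2 (i, 1) = -tt - aK W.a₁ * x0 - aK W.a₃ := by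
      simp only [gen, Fin.isValue, one_ne_zero, if_false, if_true, if_pos hn]
    rw [ga, gb]
    linear_combination h0
  · have gb : gen W (2 * k + 3) x0 x1 x2 (i, 1) = tt := by
      simp only [gen, Fin.isValue, one_ne_zero, if_false, if_true, if_neg hn]
    rw [gb]
    have ga : gen W (2 * k + 3) x0 x1 x2 (i, 0) = x0 ∨ gen W (2 * k + 3) x0 x1 x2 (i, 0) = x1 ∨
        gen W (2 * k + 3) x0 x1 x2 (i, 0) = x2 := by
      simp only [gen, if_true]
      split_ifs <;> simp
    rcases ga with ga | ga | ga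
    · rw [ga]; exact h0
    · rw [ga]; exact h1
    · rw [ga]; exact h2

end Explicit

end

/-- **Restricted quasi-diagonals exist in all odd powers of all complex elliptic curves.** -/
theorem result (W : WeierstrassCurve ℂ) [W.IsElliptic] (n : ℕ) (hn : 3 ≤ n) (hodd : Odd n) :
    ∃ S : Set (EPow W n), IsQuasiDiagonal S ∧ IsRestricted S := by
  obtain ⟨m, rfl⟩ := hodd
  obtain ⟨k, rfl⟩ : ∃ k, m = k + 1 := ⟨m - 1, by omega⟩
  have h3 : 2 * (k + 1) + 1 = 2 * k + 3 := by ring
  rw [h3]
  obtain ⟨x0, x1, x2, e1, e2, e3⟩ := exists_roots W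
  have hinf : (closureOf W (gen W (2 * k + 3) x0 x1 x2)).Infinite :=
    infinite_closureOf (gen_two x0 x1 x2) (i0 := ⟨0, by omega⟩) (by simp [gen])
      (gen_equation e1 e2 e3)
  refine ⟨closureOf W (gen W (2 * k + 3) x0 x1 x2), ⟨?_, ?_⟩, ?_⟩
  · exact isIrreducibleCurve_closureOf hinf (finite_zeros e1 e2 e3)
  · intro i j
    exact ⟨1, one_pos, trivialOn i j⟩
  · refine ⟨0, ?_⟩
    apply Set.eq_singleton_iff_unique_mem.2
    constructor
    · obtain ⟨P, hP⟩ := hinf.nonempty
      exact ⟨P, hP, sum_eq_zero e1 e2 e3 hP⟩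
    · rintro _ ⟨P, hP, rfl⟩
      exact sum_eq_zero e1 e2 e3 hP

end Pool.Agent.Results.MP_9fbe61_ag.RestrictedQuasiDiagonals
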